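import Pool.Agent.Helper15.LP.Defs

set_option autoImplicit false
set_option linter.unusedSectionVars false

/-! Module PARTS: nontrivial characters. -/

open Finset
open scoped Classical
open Pool.Agent.Helper15.LR

namespace Pool.Agent.Helper15.LP

noncomputable section

section
variable {V : Type} [Fintype V] (G : SimpleGraph V) (R : Finset V)

/-- adjacency indicator -/
def parts_a (v w : V) : ℝ := if G.Adj v w then 1 else 0
/-- indicator of `R` -/
def parts_r (v : V) : ℝ := if v ∈ R then 1 else 0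

lemma parts_a_symm (v w : V) : parts_a G v w = parts_a G w v := by
  unfold parts_a
  simp only [G.adj_comm v w]

lemma parts_a_sq (v w : V) : parts_a G v w ^ 2 = parts_a G v w := by
  unfold parts_a; split_ifs <;> norm_num

lemma parts_a_nonneg (v w : V) : 0 ≤ parts_a G v w := by
  unfold parts_a; split_ifs <;> norm_num

lemma parts_a_le (v w : V) : parts_a G v w ≤ 1 := by
  unfold parts_a; split_ifs <;> norm_num

lemma parts_r_nonneg (v : V) : 0 ≤ parts_r R v := by
  unfold parts_r; split_ifs <;> norm_num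

lemma parts_r_le (v : V) : parts_r R v ≤ 1 := by
  unfold parts_r; split_ifs <;> norm_num

lemma parts_r_sq (v : V) : (1 - parts_r R v) ^ 2 = 1 - parts_r R v := by
  unfold parts_r; split_ifs <;> norm_num

lemma parts_Av (f : V → ℝ) (v : V) : Av G f v = ∑ w, parts_a G v w * f w := by
  unfold Av Nb parts_a
  rw [Finset.sum_filter]
  refine Finset.sum_congr rfl fun w _ => ?_
  split_ifs <;> simp

lemma parts_deg (D : ℕ) (hD : Reg G D) (v : V) : ∑ w, parts_a G v w = D := by
  have h := hD v
  unfold Nb at h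
  unfold parts_a
  rw [← Finset.sum_filter, Finset.sum_const, nsmul_eq_mul, mul_one, h]

lemma parts_deg' (D : ℕ) (hD : Reg G D) (v : V) : ∑ w, parts_a G w v = D := by
  rw [← parts_deg G D hD v]
  exact Finset.sum_congr rfl fun w _ => parts_a_symm G w v

lemma parts_NR (v : V) : NR G R v = ∑ b, parts_a G v b * parts_r R b := by
  unfold NR Nb parts_a parts_r
  rw [Finset.filter_filter, Finset.card_filter]
  push_cast
  refine Finset.sum_congr rfl fun b _ => ?_
  by_cases h1 : G.Adj v b <;> by_cases h2 : b ∈ R <;> simp [h1, h2]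

lemma parts_mu (x : V → Bool) (b : V) :
    mu G R x b = -∑ v, parts_a G b v * (1 - parts_r R v) / NR G R v * sgn (x v) := by
  unfold mu Nb parts_a parts_r
  rw [Finset.filter_filter, Finset.sum_filter]
  congr 1
  refine Finset.sum_congr rfl fun v _ => ?_
  by_cases h1 : G.Adj b v <;> by_cases h2 : v ∈ R <;> simp [h1, h2]
  ring

lemma parts_sumR (F : V → ℝ) : ∑ b ∈ R, F b = ∑ b, parts_r R b * F b := by
  unfold parts_r
  rw [← Finset.sum_filter_add_sum_filter_not Finset.univ (fun b => b ∈ R)
    (fun b => (if b ∈ R then (1 : ℝ) else 0) * F b)]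
  have h1 : ∑ b ∈ univ.filter (fun b => b ∉ R), (if b ∈ R then (1 : ℝ) else 0) * F b = 0 := by
    refine Finset.sum_eq_zero fun b hb => ?_
    rw [Finset.mem_filter] at hb
    rw [if_neg hb.2, zero_mul]
  rw [h1, add_zero]
  have h2 : univ.filter (fun b => b ∈ R) = R := by ext b; simp
  rw [h2]
  refine Finset.sum_congr rfl fun b hb => ?_
  rw [if_pos hb, one_mul]

variable (κ g : V → ℝ)

/-- weighted number of common neighbours in `R` -/
def parts_B (v w : V) : ℝ := ∑ b, parts_r R b * κ b * parts_a G v b * parts_a G b w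

/-- the quadratic form -/
def parts_C (v w : V) : ℝ :=
  (1 - parts_r R v) * (parts_a G v w * κ v * g w - g w * parts_B G R κ v w / NR G R v)

lemma parts_sgn_sq (b : Bool) : sgn b * sgn b = 1 := by
  unfold sgn; cases b <;> norm_num

lemma parts_abs_sgn (b : Bool) : |sgn b| = 1 := by
  unfold sgn; cases b <;> norm_num

/-- decomposition -/
lemma parts_decomp (x y : V → Bool) (hxy : ∀ v, v ∉ R → y v = x v) :
    ∑ v, κ v * sgn (y v) * Av G (fun u => g u * sgn (x u)) v =
      ∑ v, ∑ w, parts_C G R κ g v w * sgn (x v) * sgn (x w) +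
      ∑ b ∈ R, (sgn (y b) - mu G R x b) *
        (if b ∈ R then κ b * Av G (fun u => g u * sgn (x u)) b else 0) := by
  set h : V → ℝ := fun v => Av G (fun u => g u * sgn (x u)) v with hh
  have e1 : ∀ v, κ v * sgn (y v) * h v = (1 - parts_r R v) * (κ v * sgn (x v) * h v) +
      parts_r R v * ((sgn (y v) - mu G R x v) * (if v ∈ R then κ v * h v else 0)) +
      parts_r R v * (mu G R x v * κ v * h v) := by
    intro v
    unfold parts_r
    by_cases hv : v ∈ R
    · simp only [hv, if_true]; ring
    · simp only [hv, if_false, hxy v hv]; ring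
  have e2 : ∑ v, κ v * sgn (y v) * h v = ∑ v, (1 - parts_r R v) * (κ v * sgn (x v) * h v) +
      ∑ v, parts_r R v * ((sgn (y v) - mu G R x v) * (if v ∈ R then κ v * h v else 0)) +
      ∑ v, parts_r R v * (mu G R x v * κ v * h v) := by
    rw [← Finset.sum_add_distrib, ← Finset.sum_add_distrib]
    exact Finset.sum_congr rfl fun v _ => e1 v
  rw [e2, parts_sumR R (fun b => (sgn (y b) - mu G R x b) * (if b ∈ R then κ b * h b else 0))]
  have e3 : ∑ v, (1 - parts_r R v) * (κ v * sgn (x v) * h v) =
      ∑ v, ∑ w, (1 - parts_r R v) * (parts_a G v w * κ v * g w) * sgn (x v) * sgn (x w) := by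
    refine Finset.sum_congr rfl fun v _ => ?_
    simp only [hh]
    rw [parts_Av, Finset.mul_sum, Finset.mul_sum]
    refine Finset.sum_congr rfl fun w _ => ?_
    ring
  have e4 : ∑ v, parts_r R v * (mu G R x v * κ v * h v) =
      -∑ v, ∑ w, (1 - parts_r R v) * (g w * parts_B G R κ v w / NR G R v) * sgn (x v) *
        sgn (x w) := by
    have e5 : ∀ b, parts_r R b * (mu G R x b * κ b * h b) = -∑ v, ∑ w,
        (1 - parts_r R v) * (g w * (parts_r R b * κ b * parts_a G v b * parts_a G b w) /
          NR G R v) * sgn (x v) * sgn (x w) := by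
      intro b
      simp only [hh]
      rw [parts_mu, parts_Av, neg_mul, neg_mul, mul_neg]
      congr 1
      rw [Finset.sum_mul, Finset.sum_mul, Finset.mul_sum]
      refine Finset.sum_congr rfl fun v _ => ?_
      rw [Finset.mul_sum, Finset.mul_sum]
      refine Finset.sum_congr rfl fun w _ => ?_
      rw [parts_a_symm G b v]
      ring
    rw [Finset.sum_congr rfl fun b _ => e5 b, Finset.sum_neg_distrib]
    congr 1
    rw [Finset.sum_comm]
    refine Finset.sum_congr rfl fun v _ => ?_
    rw [Finset.sum_comm]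
    refine Finset.sum_congr rfl fun w _ => ?_
    unfold parts_B
    rw [Finset.mul_sum, Finset.sum_div, Finset.mul_sum, Finset.sum_mul, Finset.sum_mul]
  rw [e3, e4]
  have e6 : ∑ v, ∑ w, parts_C G R κ g v w * sgn (x v) * sgn (x w) =
      ∑ v, ∑ w, (1 - parts_r R v) * (parts_a G v w * κ v * g w) * sgn (x v) * sgn (x w) -
      ∑ v, ∑ w, (1 - parts_r R v) * (g w * parts_B G R κ v w / NR G R v) * sgn (x v) *
        sgn (x w) := by
    rw [← Finset.sum_sub_distrib]
    refine Finset.sum_congr rfl fun v _ => ?_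
    rw [← Finset.sum_sub_distrib]
    refine Finset.sum_congr rfl fun w _ => ?_
    unfold parts_C
    ring
  rw [e6]
  ring

/-- number of common neighbours in `R` -/
def parts_cd (v w : V) : ℝ := ∑ b, parts_r R b * parts_a G v b * parts_a G b w

lemma parts_B_le (hκ : ∀ v, |κ v| ≤ 1) (v w : V) : |parts_B G R κ v w| ≤ parts_cd G R v w := by
  unfold parts_B parts_cd
  refine (Finset.abs_sum_le_sum_abs _ _).trans (Finset.sum_le_sum fun b _ => ?_)
  rw [abs_mul, abs_mul, abs_mul, abs_of_nonneg (parts_r_nonneg R b),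
    abs_of_nonneg (parts_a_nonneg G v b), abs_of_nonneg (parts_a_nonneg G b w)]
  have h1 := parts_r_nonneg R b
  have h2 := parts_a_nonneg G v b
  have h3 := parts_a_nonneg G b w
  have h4 : parts_r R b * |κ b| ≤ parts_r R b * 1 := mul_le_mul_of_nonneg_left (hκ b) h1
  rw [mul_one] at h4
  gcongr

lemma parts_cd_le (v w : V) : parts_cd G R v w ≤ NR G R v := by
  rw [parts_NR]
  unfold parts_cd
  refine Finset.sum_le_sum fun b _ => ?_
  have h1 := parts_r_nonneg R b
  have h2 := parts_a_nonneg G v b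
  have h3 := parts_a_le G b w
  have h4 : 0 ≤ parts_a G v b * parts_r R b := mul_nonneg h2 h1
  calc parts_r R b * parts_a G v b * parts_a G b w
      = (parts_a G v b * parts_r R b) * parts_a G b w := by ring
    _ ≤ (parts_a G v b * parts_r R b) * 1 := mul_le_mul_of_nonneg_left h3 h4
    _ = parts_a G v b * parts_r R b := mul_one _

lemma parts_cd_nonneg (v w : V) : 0 ≤ parts_cd G R v w :=
  Finset.sum_nonneg fun b _ => mul_nonneg (mul_nonneg (parts_r_nonneg R b) (parts_a_nonneg G v b))
    (parts_a_nonneg G b w)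

lemma parts_cd_sum (D : ℕ) (hD : Reg G D) (w : V) : ∑ v, parts_cd G R v w = D * NR G R w := by
  unfold parts_cd
  rw [Finset.sum_comm, parts_NR, Finset.mul_sum]
  refine Finset.sum_congr rfl fun b _ => ?_
  rw [← Finset.sum_mul, ← Finset.mul_sum, parts_deg' G D hD b, parts_a_symm G b w]
  ring

/-- Frobenius norm -/
lemma parts_frob (D m : ℕ) (hD : Reg G D) (hD0 : 0 < D) (hm : 0 < m) (hR : GoodR G D m R)
    (hκ : ∀ v, |κ v| ≤ 1) (hg : S2 g ≤ 144 / (D : ℝ) ^ 2) :
    ∑ v, ∑ w, parts_C G R κ g v w ^ 2 ≤ 1296 / D := by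
  have hD0' : (0 : ℝ) < D := by exact_mod_cast hD0
  have hm' : (0 : ℝ) < m := by exact_mod_cast hm
  set q : ℝ := Real.sqrt (m * D) with hq
  have hq0 : 0 < q := Real.sqrt_pos.mpr (by positivity)
  have hκ2 : ∀ v, κ v ^ 2 ≤ 1 := by
    intro v
    rw [← sq_abs]
    exact pow_le_one₀ (abs_nonneg _) (hκ v)
  have t1 : ∀ v w, parts_C G R κ g v w ^ 2 ≤ 3 * (parts_a G v w * g w ^ 2) +
      3 / 2 * (g w ^ 2 * (parts_cd G R v w / (5 * q))) := by
    intro v w
    have hNR := (hR v).1
    have hNR0 : 0 < NR G R v := lt_of_lt_of_le (by positivity) hNR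
    set A : ℝ := parts_a G v w * κ v * g w with hA
    set B : ℝ := g w * parts_B G R κ v w / NR G R v with hB
    have h1 : parts_C G R κ g v w ^ 2 = (1 - parts_r R v) * (A - B) ^ 2 := by
      unfold parts_C
      rw [mul_pow, parts_r_sq]
    have h2 : (1 - parts_r R v) * (A - B) ^ 2 ≤ (A - B) ^ 2 := by
      have := parts_r_nonneg R v
      nlinarith [sq_nonneg (A - B)]
    have h3 : (A - B) ^ 2 ≤ 3 * A ^ 2 + 3 / 2 * B ^ 2 := by
      nlinarith [sq_nonneg (2 * A + B)]
    have h4 : A ^ 2 ≤ parts_a G v w * g w ^ 2 := by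
      rw [hA, mul_pow, mul_pow, parts_a_sq]
      have h5 : parts_a G v w * κ v ^ 2 ≤ parts_a G v w * 1 :=
        mul_le_mul_of_nonneg_left (hκ2 v) (parts_a_nonneg G v w)
      rw [mul_one] at h5
      exact mul_le_mul_of_nonneg_right h5 (sq_nonneg _)
    have h6 : B ^ 2 ≤ g w ^ 2 * (parts_cd G R v w / (5 * q)) := by
      have h7 : B = g w * (parts_B G R κ v w / NR G R v) := by rw [hB, mul_div_assoc]
      rw [h7, mul_pow]
      refine mul_le_mul_of_nonneg_left ?_ (sq_nonneg _)
      have h8 : |parts_B G R κ v w / NR G R v| ≤ parts_cd G R v w / NR G R v := by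
        rw [abs_div, abs_of_pos hNR0]
        exact div_le_div_of_nonneg_right (parts_B_le G R κ hκ v w) hNR0.le
      have h9 : parts_cd G R v w / NR G R v ≤ 1 := by
        rw [div_le_one hNR0]; exact parts_cd_le G R v w
      have h10 : 0 ≤ parts_cd G R v w / NR G R v := div_nonneg (parts_cd_nonneg G R v w) hNR0.le
      calc (parts_B G R κ v w / NR G R v) ^ 2 = |parts_B G R κ v w / NR G R v| ^ 2 :=
            (sq_abs _).symm
        _ ≤ (parts_cd G R v w / NR G R v) ^ 2 := by gcongr
        _ ≤ parts_cd G R v w / NR G R v := by nlinarith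
        _ ≤ parts_cd G R v w / (5 * q) := by
            have := parts_cd_nonneg G R v w
            gcongr
    rw [h1]
    linarith
  have t2 : ∑ v, ∑ w, parts_C G R κ g v w ^ 2 ≤ ∑ v, ∑ w, (3 * (parts_a G v w * g w ^ 2) +
      3 / 2 * (g w ^ 2 * (parts_cd G R v w / (5 * q)))) :=
    Finset.sum_le_sum fun v _ => Finset.sum_le_sum fun w _ => t1 v w
  refine t2.trans ?_
  rw [Finset.sum_comm]
  have t3 : ∀ w, ∑ v, (3 * (parts_a G v w * g w ^ 2) +
      3 / 2 * (g w ^ 2 * (parts_cd G R v w / (5 * q)))) ≤ 9 * D * g w ^ 2 := by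
    intro w
    rw [Finset.sum_add_distrib, ← Finset.mul_sum, ← Finset.sum_mul, parts_deg' G D hD w,
      ← Finset.mul_sum, ← Finset.mul_sum, ← Finset.sum_div, parts_cd_sum G R D hD w]
    have h1 : (D : ℝ) * NR G R w / (5 * q) ≤ 4 * D := by
      rw [div_le_iff₀ (by positivity)]
      have := (hR w).2
      nlinarith
    have h2 : g w ^ 2 * ((D : ℝ) * NR G R w / (5 * q)) ≤ g w ^ 2 * (4 * D) :=
      mul_le_mul_of_nonneg_left h1 (sq_nonneg _)
    nlinarith
  refine (Finset.sum_le_sum fun w _ => t3 w).trans ?_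
  rw [← Finset.mul_sum]
  unfold S2 at hg
  calc 9 * (D : ℝ) * ∑ w, g w ^ 2 ≤ 9 * D * (144 / (D : ℝ) ^ 2) := by gcongr
    _ = 1296 / D := by field_simp; norm_num

lemma parts_diag (D m : ℕ) (hD0 : 0 < D) (hm : 0 < m) (hR : GoodR G D m R)
    (hκ : ∀ v, |κ v| ≤ 1) (v : V) : |parts_C G R κ g v v| ≤ |g v| := by
  have hD0' : (0 : ℝ) < D := by exact_mod_cast hD0
  have hm' : (0 : ℝ) < m := by exact_mod_cast hm
  have hNR := (hR v).1
  have hNR0 : 0 < NR G R v :=
    lt_of_lt_of_le (by have := Real.sqrt_pos.mpr (mul_pos hm' hD0'); positivity) hNR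
  have h0 : parts_a G v v = 0 := by unfold parts_a; simp
  unfold parts_C
  rw [h0, zero_mul, zero_mul, zero_sub, abs_mul, abs_neg, mul_div_assoc, abs_mul]
  have h1 : |1 - parts_r R v| ≤ 1 := by
    rw [abs_le]
    have a1 := parts_r_nonneg R v
    have a2 := parts_r_le R v
    constructor <;> linarith
  have h2 : |parts_B G R κ v v / NR G R v| ≤ 1 := by
    rw [abs_div, abs_of_pos hNR0, div_le_one hNR0]
    exact (parts_B_le G R κ hκ v v).trans (parts_cd_le G R v v)
  calc |1 - parts_r R v| * (|g v| * |parts_B G R κ v v / NR G R v|) ≤ 1 * (|g v| * 1) := by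
        gcongr
    _ = |g v| := by ring

/-- `S2 (P f) ≤ S2 f` -/
lemma parts_Sm (D : ℕ) (hD : Reg G D) (hD0 : 0 < D) (f : V → ℝ) : Sm G D f ≤ 4 * S2 f := by
  have hD0' : (0 : ℝ) < D := by exact_mod_cast hD0
  have h1 : ∀ v, (f v - Av G f v / D) ^ 2 ≤ 2 * f v ^ 2 + 2 * (Av G f v / D) ^ 2 := by
    intro v
    nlinarith [sq_nonneg (f v + Av G f v / D)]
  have h2 : ∀ v, (Av G f v / D) ^ 2 ≤ (∑ w, parts_a G v w * f w ^ 2) / D := by
    intro v
    have h3 : Av G f v ^ 2 ≤ D * ∑ w, parts_a G v w * f w ^ 2 := by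
      unfold Av
      have h4 := sq_sum_le_card_mul_sum_sq (s := Nb G v) (f := f)
      rw [hD v] at h4
      have h5 : ∑ w ∈ Nb G v, f w ^ 2 = ∑ w, parts_a G v w * f w ^ 2 := parts_Av G (fun w => f w ^ 2) v
      rw [h5] at h4
      exact h4
    rw [div_pow, div_le_div_iff₀ (by positivity) hD0']
    nlinarith
  unfold Sm S2
  calc ∑ v, (f v - Av G f v / D) ^ 2
      ≤ ∑ v, (2 * f v ^ 2 + 2 * ((∑ w, parts_a G v w * f w ^ 2) / D)) :=
        Finset.sum_le_sum fun v _ => (h1 v).trans (by have := h2 v; linarith)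
    _ = 2 * ∑ v, f v ^ 2 + 2 * ((∑ v, ∑ w, parts_a G v w * f w ^ 2) / D) := by
        rw [Finset.sum_add_distrib, ← Finset.mul_sum, ← Finset.mul_sum, ← Finset.sum_div]
    _ = 4 * ∑ v, f v ^ 2 := by
        rw [Finset.sum_comm]
        have h6 : ∑ w, ∑ v, parts_a G v w * f w ^ 2 = D * ∑ w, f w ^ 2 := by
          rw [Finset.mul_sum]
          refine Finset.sum_congr rfl fun w _ => ?_
          rw [← Finset.sum_mul, parts_deg' G D hD w]
        rw [h6]
        field_simp
        ring

lemma parts_PP (E : Set (V → Bool)) :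
    PP (un : V → Bool → ℝ) E = ∑ x, if x ∈ E then (1 / 2 : ℝ) ^ Fintype.card V else 0 := by
  unfold PP un
  refine Finset.sum_congr rfl fun x _ => ?_
  rw [Finset.prod_const, Finset.card_univ]

lemma parts_one : ∑ _x : V → Bool, (1 / 2 : ℝ) ^ Fintype.card V = 1 := by
  rw [Finset.sum_const, Finset.card_univ, Fintype.card_fun, Fintype.card_bool, nsmul_eq_mul]
  push_cast
  rw [← mul_pow]
  norm_num

/-- the means are small -/
lemma parts_E2 (hRade : Rade_stmt) (D m : ℕ) (hD : Reg G D) (hD0 : 0 < D) (hm : 0 < m)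
    (hR : GoodR G D m R) (b : V) :
    PP (un : V → Bool → ℝ) {x | 1 / 2 < |mu G R x b|} ≤ 2 * Real.exp (-(2 * m)) := by
  have hD0' : (0 : ℝ) < D := by exact_mod_cast hD0
  have hm' : (0 : ℝ) < m := by exact_mod_cast hm
  set c : V → ℝ := fun v => parts_a G b v * (1 - parts_r R v) / NR G R v with hc
  have hc2 : ∑ v, c v ^ 2 ≤ 1 / (25 * m) := by
    have h1 : ∀ v, c v ^ 2 ≤ parts_a G b v * (1 / (25 * (m * D))) := by
      intro v
      have hNR := (hR v).1
      have hq : 0 < Real.sqrt (m * D) := Real.sqrt_pos.mpr (mul_pos hm' hD0')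
      have hNR0 : 0 < NR G R v := lt_of_lt_of_le (by positivity) hNR
      simp only [hc]
      rw [div_pow, mul_pow, parts_a_sq, parts_r_sq]
      have h2 : 25 * (m * D : ℝ) ≤ NR G R v ^ 2 := by
        have h3 : (5 * Real.sqrt (m * D)) ^ 2 ≤ NR G R v ^ 2 := by gcongr
        rw [mul_pow, Real.sq_sqrt (by positivity)] at h3
        linarith
      have h4 : parts_a G b v * (1 - parts_r R v) ≤ parts_a G b v * 1 :=
        mul_le_mul_of_nonneg_left (by have := parts_r_nonneg R v; linarith) (parts_a_nonneg G b v)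
      rw [mul_one] at h4
      have h5 := parts_a_nonneg G b v
      calc parts_a G b v * (1 - parts_r R v) / NR G R v ^ 2 ≤ parts_a G b v / NR G R v ^ 2 := by
            gcongr
        _ ≤ parts_a G b v / (25 * (m * D)) := by gcongr
        _ = parts_a G b v * (1 / (25 * (m * D))) := by ring
    refine (Finset.sum_le_sum fun v _ => h1 v).trans ?_
    rw [← Finset.sum_mul, parts_deg G D hD b]
    apply le_of_eq
    field_simp
  have h := hRade V c (1 / (25 * m)) (1 / 2) (by positivity) hc2 (by norm_num)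
  have hset : {x : V → Bool | 1 / 2 < |mu G R x b|} = {x | 1 / 2 < |∑ i, c i * sgn (x i)|} := by
    ext x
    simp only [Set.mem_ofPred_eq]
    rw [parts_mu, abs_neg]
  rw [hset]
  refine h.trans ?_
  have he : Real.exp (-((1 / 2) ^ 2 / (2 * (1 / (25 * (m : ℝ)))))) ≤ Real.exp (-(2 * m)) := by
    rw [Real.exp_le_exp]
    have : ((1 / 2) ^ 2 / (2 * (1 / (25 * (m : ℝ))))) = 25 / 8 * m := by field_simp; norm_num
    rw [this]
    linarith
  linarith

/-- the local sums are small -/
lemma parts_E3 (hRade : Rade_stmt) (m : ℕ) (hm : 0 < m) (b : V) :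
    PP (un : V → Bool → ℝ) {x | 4 * m * (∑ w, parts_a G b w * g w ^ 2) <
      Av G (fun u => g u * sgn (x u)) b ^ 2} ≤ 2 * Real.exp (-(2 * m)) := by
  have hm' : (0 : ℝ) < m := by exact_mod_cast hm
  set A : ℝ := ∑ w, parts_a G b w * g w ^ 2 with hA
  have hA0 : 0 ≤ A := Finset.sum_nonneg fun w _ => mul_nonneg (parts_a_nonneg G b w) (sq_nonneg _)
  rcases hA0.lt_or_eq with hpos | hzero
  · have hc : ∑ w, (parts_a G b w * g w) ^ 2 ≤ A := by
      rw [hA]
      refine Finset.sum_le_sum fun w _ => ?_
      rw [mul_pow, parts_a_sq]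
    have h := hRade V (fun w => parts_a G b w * g w) A (Real.sqrt (4 * m * A)) hpos hc
      (Real.sqrt_nonneg _)
    have hset : {x : V → Bool | 4 * m * A < Av G (fun u => g u * sgn (x u)) b ^ 2} ⊆
        {x | Real.sqrt (4 * m * A) < |∑ i, (parts_a G b i * g i) * sgn (x i)|} := by
      intro x hx
      have hx' : 4 * m * A < Av G (fun u => g u * sgn (x u)) b ^ 2 := hx
      show Real.sqrt (4 * m * A) < |∑ i, (parts_a G b i * g i) * sgn (x i)|
      rw [Real.sqrt_lt' (by
        rw [abs_pos]
        intro h0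
        rw [parts_Av] at hx'
        have h1 : ∑ w, parts_a G b w * (g w * sgn (x w)) = 0 := by
          rw [← h0]; exact Finset.sum_congr rfl fun w _ => by ring
        rw [h1] at hx'
        have : 0 ≤ 4 * m * A := by positivity
        linarith [hx'])]
      rw [sq_abs]
      rw [parts_Av] at hx'
      have h1 : ∑ w, parts_a G b w * (g w * sgn (x w)) = ∑ i, (parts_a G b i * g i) * sgn (x i) :=
        Finset.sum_congr rfl fun w _ => by ring
      rw [h1] at hx'
      exact hx'
    have hmono : PP (un : V → Bool → ℝ) {x | 4 * m * A < Av G (fun u => g u * sgn (x u)) b ^ 2} ≤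
        PP (un : V → Bool → ℝ)
          {x | Real.sqrt (4 * m * A) < |∑ i, (parts_a G b i * g i) * sgn (x i)|} := by
      rw [parts_PP, parts_PP]
      refine Finset.sum_le_sum fun x _ => ?_
      by_cases hx : x ∈ {x : V → Bool | 4 * m * A < Av G (fun u => g u * sgn (x u)) b ^ 2}
      · rw [if_pos hx, if_pos (hset hx)]
      · rw [if_neg hx]
        split_ifs <;> positivity
    refine (hmono.trans h).trans ?_
    have : Real.sqrt (4 * m * A) ^ 2 / (2 * A) = 2 * m := by
      rw [Real.sq_sqrt (by positivity)]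
      field_simp
      norm_num
    rw [this]
  · have hz : ∀ w, parts_a G b w * g w ^ 2 = 0 := by
      intro w
      have := (Finset.sum_eq_zero_iff_of_nonneg (fun w _ =>
        mul_nonneg (parts_a_nonneg G b w) (sq_nonneg (g w)))).mp hzero.symm
      exact this w (Finset.mem_univ w)
    have hh : ∀ x : V → Bool, Av G (fun u => g u * sgn (x u)) b = 0 := by
      intro x
      rw [parts_Av]
      refine Finset.sum_eq_zero fun w _ => ?_
      rcases mul_eq_zero.mp (hz w) with h1 | h1
      · rw [h1, zero_mul]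
      · have : g w = 0 := by
          have := pow_eq_zero_iff (two_ne_zero) |>.mp h1
          exact this
        rw [this]; ring
    have : PP (un : V → Bool → ℝ) {x | 4 * m * A < Av G (fun u => g u * sgn (x u)) b ^ 2} = 0 := by
      rw [parts_PP]
      refine Finset.sum_eq_zero fun x _ => ?_
      rw [if_neg]
      simp only [Set.mem_ofPred_eq, not_lt]
      rw [hh x, ← hzero]
      simp
    rw [this]
    positivity

end

set_option maxHeartbeats 4000000 in
theorem lp_PARTS (hChaos : Chaos_stmt) (hRade : Rade_stmt) : PartS_stmt := by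
  intro V _ G D m R w κ g hD hm hn hDm hR hW hκ hg1 hg2
  obtain ⟨hw0, hw1, hw2, hw3, -⟩ := hW
  have hm0 : 0 < m := by omega
  have hm' : (0 : ℝ) < m := by exact_mod_cast hm0
  have hm60 : (60 : ℝ) ≤ m := by exact_mod_cast hm
  have hDm' : (10 : ℝ) ^ 4 * m ^ 3 ≤ D := by exact_mod_cast hDm
  have hD0' : (0 : ℝ) < D := lt_of_lt_of_le (by positivity) hDm'
  have hD0 : 0 < D := by exact_mod_cast hD0'
  have hD1 : (1 : ℝ) ≤ D := by exact_mod_cast hD0
  set a : ℝ := Real.sqrt m with ha
  set d : ℝ := Real.sqrt D with hd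
  have ha0 : 0 < a := Real.sqrt_pos.mpr hm'
  have hd0 : 0 < d := Real.sqrt_pos.mpr hD0'
  have ham : a ^ 2 = m := Real.sq_sqrt hm'.le
  have hdD : d ^ 2 = D := Real.sq_sqrt hD0'.le
  have had : Real.sqrt (m * D) = a * d := Real.sqrt_mul hm'.le D
  have hbig : 100 * (m * a) ≤ d := by
    rw [hd]
    apply Real.le_sqrt_of_sq_le
    calc (100 * ((m : ℝ) * a)) ^ 2 = 10 ^ 4 * (m : ℝ) ^ 2 * a ^ 2 := by ring
      _ = 10 ^ 4 * (m : ℝ) ^ 3 := by rw [ham]; ring
      _ ≤ (D : ℝ) := hDm'
  set n : ℝ := (Fintype.card V : ℝ) with hn'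
  have hn0 : 0 ≤ n := Nat.cast_nonneg _
  set N : ℝ := (1 / 2 : ℝ) ^ Fintype.card V with hN
  have hN0 : 0 < N := by positivity
  set t : ℝ := 768 * m / d with ht
  set T : ℝ := 115200 * (m * a) / (D * d) with hT
  have ht0 : 0 ≤ t := by positivity
  have hT0 : 0 < T := by positivity
  -- the events
  set C : V → V → ℝ := fun v w => if v = w then 0 else parts_C G R κ g v w with hC
  set E1 : Set (V → Bool) := {x | 10 * m * (36 / d) < |∑ v, ∑ w, C v w * sgn (x v) * sgn (x w)|}
    with hE1
  set E2 : V → Set (V → Bool) := fun b => {x | 1 / 2 < |mu G R x b|} with hE2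
  set E3 : V → Set (V → Bool) := fun b => {x | 4 * m * (∑ w, parts_a G b w * g w ^ 2) <
      Av G (fun u => g u * sgn (x u)) b ^ 2} with hE3
  have hP1 : PP (un : V → Bool → ℝ) E1 ≤ Real.exp (-(2 * m)) := by
    refine hChaos V C (36 / d) m (by omega) (by positivity) (fun v => by simp [hC]) ?_
    have h1 := parts_frob G R κ g D m hD hD0 hm0 hR hκ hg2
    have h2 : ∑ v, ∑ w, C v w ^ 2 ≤ ∑ v, ∑ w, parts_C G R κ g v w ^ 2 := by
      refine Finset.sum_le_sum fun v _ => Finset.sum_le_sum fun w _ => ?_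
      simp only [hC]
      split_ifs
      · simp only [ne_eq, OfNat.ofNat_ne_zero, not_false_eq_true, zero_pow]
        exact sq_nonneg _
      · exact le_refl _
    refine (h2.trans h1).trans (le_of_eq ?_)
    rw [div_pow, hdD]
    norm_num
  have hP2 : ∀ b, PP (un : V → Bool → ℝ) (E2 b) ≤ 2 * Real.exp (-(2 * m)) := fun b =>
    parts_E2 G R hRade D m hD hD0 hm0 hR b
  have hP3 : ∀ b, PP (un : V → Bool → ℝ) (E3 b) ≤ 2 * Real.exp (-(2 * m)) := fun b =>
    parts_E3 G g hRade m hm0 b
  set δ4 : ℝ := 2 * Real.exp (-(2 * m)) + 2 * n * Real.exp (-(2 * m)) with hδ4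
  have hδ40 : 0 ≤ δ4 := by positivity
  -- the bound for a fixed `x`
  have hx : ∀ x : V → Bool, ∑ y, (if 10 ^ 4 * m / d <
      |∑ v, κ v * sgn (y v) * Av G (fun u => g u * sgn (x u)) v| then w (x, y) else 0) ≤
      (if x ∈ E1 then N else 0) + ∑ b, (if x ∈ E2 b then N else 0) +
        ∑ b, (if x ∈ E3 b then N else 0) + N * δ4 := by
    intro x
    have nn1 : 0 ≤ (if x ∈ E1 then N else 0) := by split_ifs <;> linarith
    have nn2 : ∀ b, 0 ≤ (if x ∈ E2 b then N else 0) := fun b => by split_ifs <;> linarith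
    have nn3 : ∀ b, 0 ≤ (if x ∈ E3 b then N else 0) := fun b => by split_ifs <;> linarith
    have ss2 := Finset.sum_nonneg fun b (_ : b ∈ (Finset.univ : Finset V)) => nn2 b
    have ss3 := Finset.sum_nonneg fun b (_ : b ∈ (Finset.univ : Finset V)) => nn3 b
    have nn4 : 0 ≤ N * δ4 := by positivity
    have hall : ∑ y, (if 10 ^ 4 * m / d <
      |∑ v, κ v * sgn (y v) * Av G (fun u => g u * sgn (x u)) v| then w (x, y) else 0) ≤ N := by
      have hNx : N = ∑ y, w (x, y) := (hw1 x).symm
      rw [hNx]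
      refine Finset.sum_le_sum fun y _ => ?_
      split_ifs
      · exact le_refl _
      · exact hw0 _
    by_cases h1 : x ∈ E1
    · rw [if_pos h1]; linarith
    by_cases h2 : ∃ b, x ∈ E2 b
    · obtain ⟨b, hb⟩ := h2
      have := Finset.single_le_sum (fun b _ => nn2 b) (Finset.mem_univ b)
      rw [if_pos hb] at this
      linarith
    by_cases h3 : ∃ b, x ∈ E3 b
    · obtain ⟨b, hb⟩ := h3
      have := Finset.single_le_sum (fun b _ => nn3 b) (Finset.mem_univ b)
      rw [if_pos hb] at this
      linarith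
    push Not at h2 h3
    have h1' : |∑ v, ∑ w, C v w * sgn (x v) * sgn (x w)| ≤ 10 * m * (36 / d) := by
      by_contra hcon
      push Not at hcon
      exact h1 hcon
    have h2' : ∀ b, |mu G R x b| ≤ 1 / 2 := by
      intro b
      by_contra hcon
      push Not at hcon
      exact h2 b hcon
    have h3' : ∀ b, Av G (fun u => g u * sgn (x u)) b ^ 2 ≤
        4 * m * (∑ w, parts_a G b w * g w ^ 2) := by
      intro b
      by_contra hcon
      push Not at hcon
      exact h3 b hcon
    set f : V → ℝ := fun b => if b ∈ R then κ b * Av G (fun u => g u * sgn (x u)) b else 0 with hf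
    have hS2 : S2 f ≤ 11520 * (m * a) / (D * d) := by
      have e1 : ∀ b, f b ^ 2 ≤ parts_r R b * (4 * m * (∑ w, parts_a G b w * g w ^ 2)) := by
        intro b
        simp only [hf, parts_r]
        by_cases hb : b ∈ R
        · rw [if_pos hb, if_pos hb, one_mul, mul_pow]
          have hk : κ b ^ 2 ≤ 1 := by
            rw [← sq_abs]
            exact pow_le_one₀ (abs_nonneg _) (hκ b)
          calc κ b ^ 2 * Av G (fun u => g u * sgn (x u)) b ^ 2
              ≤ 1 * Av G (fun u => g u * sgn (x u)) b ^ 2 :=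
                mul_le_mul_of_nonneg_right hk (sq_nonneg _)
            _ ≤ _ := by rw [one_mul]; exact h3' b
        · rw [if_neg hb, if_neg hb]; simp
      have e2 : S2 f ≤ ∑ b, parts_r R b * (4 * m * (∑ w, parts_a G b w * g w ^ 2)) :=
        Finset.sum_le_sum fun b _ => e1 b
      have e3 : ∑ b, parts_r R b * (4 * m * (∑ w, parts_a G b w * g w ^ 2)) =
          4 * m * ∑ w, NR G R w * g w ^ 2 := by
        have : ∀ b, parts_r R b * (4 * m * (∑ w, parts_a G b w * g w ^ 2)) =
            4 * m * ∑ w, parts_a G w b * parts_r R b * g w ^ 2 := by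
          intro b
          rw [Finset.mul_sum, Finset.mul_sum, Finset.mul_sum]
          refine Finset.sum_congr rfl fun w _ => ?_
          rw [parts_a_symm G b w]
          ring
        rw [Finset.sum_congr rfl fun b _ => this b, ← Finset.mul_sum, Finset.sum_comm]
        congr 1
        refine Finset.sum_congr rfl fun w _ => ?_
        rw [parts_NR, Finset.sum_mul]
      have e4 : ∑ w, NR G R w * g w ^ 2 ≤ 20 * (a * d) * (144 / (D : ℝ) ^ 2) := by
        have e5 : ∑ w, NR G R w * g w ^ 2 ≤ ∑ w, 20 * (a * d) * g w ^ 2 := by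
          refine Finset.sum_le_sum fun w _ => mul_le_mul_of_nonneg_right ?_ (sq_nonneg _)
          have := (hR w).2
          rw [had] at this
          exact this
        rw [← Finset.mul_sum] at e5
        refine e5.trans ?_
        exact mul_le_mul_of_nonneg_left hg2 (by positivity)
      calc S2 f ≤ 4 * m * ∑ w, NR G R w * g w ^ 2 := by rw [← e3]; exact e2
        _ ≤ 4 * m * (20 * (a * d) * (144 / (D : ℝ) ^ 2)) := by gcongr
        _ = 11520 * (m * a) / (D * d) := by
            rw [← hdD]
            field_simp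
            norm_num
    have hSm : 2 * (Sm G D f + S2 f / D) ≤ T := by
      have e1 := parts_Sm G D hD hD0 f
      have hS20 : 0 ≤ S2 f := Finset.sum_nonneg fun _ _ => sq_nonneg _
      have e2 : S2 f / D ≤ S2 f := div_le_self hS20 hD1
      have e3 : T = 10 * (11520 * (m * a) / (D * d)) := by rw [hT]; ring
      rw [e3]
      linarith
    have h4 := hw3 x (fun b _ => h2' b) f T t hSm hT0 ht0
    have h5 : Real.exp (-(t ^ 2 / (256 * m * T))) ≤ Real.exp (-(2 * m)) := by
      rw [Real.exp_le_exp]
      have h6 : 2 * (m : ℝ) ≤ t ^ 2 / (256 * m * T) := by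
        rw [le_div_iff₀ (by positivity), ht, hT]
        have h7 : 2 * (m : ℝ) * (256 * m * (115200 * (m * a) / (D * d))) =
            58982400 * (m ^ 2) * (m * a) / (D * d) := by ring
        have h8 : (768 * (m : ℝ) / d) ^ 2 = 589824 * m ^ 2 * d / (D * d) := by
          rw [← hdD]; field_simp; norm_num
        rw [h7, h8]
        refine div_le_div_of_nonneg_right ?_ (by positivity)
        have := mul_le_mul_of_nonneg_left hbig (by positivity : (0:ℝ) ≤ 589824 * (m:ℝ) ^ 2)
        calc 58982400 * (m : ℝ) ^ 2 * (m * a) = 589824 * (m : ℝ) ^ 2 * (100 * (m * a)) := by ring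
          _ ≤ 589824 * (m : ℝ) ^ 2 * d := this
      linarith
    have h9 : Real.exp (-(4 * (m : ℝ))) ≤ Real.exp (-(2 * m)) := by
      rw [Real.exp_le_exp]; linarith
    have h10 : N * (2 * Real.exp (-(t ^ 2 / (256 * m * T))) +
        2 * (Fintype.card V : ℝ) * Real.exp (-(4 * m))) ≤ N * δ4 := by
      rw [hδ4]
      gcongr
    have h11 : ∑ y, (if 10 ^ 4 * m / d <
        |∑ v, κ v * sgn (y v) * Av G (fun u => g u * sgn (x u)) v| then w (x, y) else 0) ≤
        ∑ y, (if t < |∑ b ∈ R, (sgn (y b) - mu G R x b) * f b| then w (x, y) else 0) := by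
      refine Finset.sum_le_sum fun y _ => ?_
      by_cases hwz : w (x, y) = 0
      · simp only [hwz, ite_self, le_refl]
      · by_cases hbad : 10 ^ 4 * m / d <
            |∑ v, κ v * sgn (y v) * Av G (fun u => g u * sgn (x u)) v|
        · rw [if_pos hbad]
          have hdec := parts_decomp G R κ g x y (fun v hv => hw2 x y v hwz hv)
          have hlt : t < |∑ b ∈ R, (sgn (y b) - mu G R x b) * f b| := by
            by_contra hcon
            push Not at hcon
            have hCsum : ∑ v, ∑ w, parts_C G R κ g v w * sgn (x v) * sgn (x w) =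
                ∑ v, ∑ w, C v w * sgn (x v) * sgn (x w) + ∑ v, parts_C G R κ g v v := by
              rw [← Finset.sum_add_distrib]
              refine Finset.sum_congr rfl fun v _ => ?_
              have e1 : ∀ w, parts_C G R κ g v w * sgn (x v) * sgn (x w) =
                  C v w * sgn (x v) * sgn (x w) + (if w = v then parts_C G R κ g v v else 0) := by
                intro w
                simp only [hC]
                by_cases hvw : v = w
                · subst hvw
                  rw [if_pos rfl, if_pos rfl, mul_assoc, parts_sgn_sq]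
                  ring
                · rw [if_neg hvw, if_neg (Ne.symm hvw), add_zero]
              rw [Finset.sum_congr rfl fun w _ => e1 w, Finset.sum_add_distrib]
              congr 1
              simp
            have hdiag : |∑ v, parts_C G R κ g v v| ≤ 1 / d := by
              refine (Finset.abs_sum_le_sum_abs _ _).trans ?_
              exact (Finset.sum_le_sum fun v _ => parts_diag G R κ g D m hD0 hm0 hR hκ v).trans hg1
            rw [hdec, hCsum] at hbad
            have e2 : |∑ v, ∑ w, C v w * sgn (x v) * sgn (x w) + ∑ v, parts_C G R κ g v v +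
                ∑ b ∈ R, (sgn (y b) - mu G R x b) * f b| ≤
                |∑ v, ∑ w, C v w * sgn (x v) * sgn (x w)| + |∑ v, parts_C G R κ g v v| +
                |∑ b ∈ R, (sgn (y b) - mu G R x b) * f b| := abs_add_three _ _ _
            have e3 : 10 * m * (36 / d) + 1 / d + t ≤ 10 ^ 4 * m / d := by
              rw [ht]
              have : 10 * (m : ℝ) * (36 / d) + 1 / d + 768 * m / d = (1128 * m + 1) / d := by ring
              rw [this]
              gcongr
              linarith
            have e4 : 10 ^ 4 * (m : ℝ) / d < 10 * m * (36 / d) + 1 / d + t := by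
              refine lt_of_lt_of_le hbad (e2.trans ?_)
              linarith
            linarith
          rw [if_pos hlt]
        · rw [if_neg hbad]
          split_ifs
          · exact hw0 _
          · exact le_refl _
    calc _ ≤ _ := h11
      _ ≤ _ := h4
      _ ≤ N * δ4 := h10
      _ ≤ _ := by linarith
  -- sum over `x`
  have hsum : ∑ p : (V → Bool) × (V → Bool), (if 10 ^ 4 * m / d <
      |∑ v, κ v * sgn (p.2 v) * Av G (fun u => g u * sgn (p.1 u)) v| then w p else 0) ≤
      PP (un : V → Bool → ℝ) E1 + ∑ b, PP (un : V → Bool → ℝ) (E2 b) +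
        ∑ b, PP (un : V → Bool → ℝ) (E3 b) + δ4 := by
    rw [Fintype.sum_prod_type]
    refine (Finset.sum_le_sum fun x _ => hx x).trans (le_of_eq ?_)
    rw [Finset.sum_add_distrib, Finset.sum_add_distrib, Finset.sum_add_distrib,
      Finset.sum_comm (f := fun x b => if x ∈ E2 b then N else 0),
      Finset.sum_comm (f := fun x b => if x ∈ E3 b then N else 0), ← Finset.sum_mul,
      parts_one, one_mul, parts_PP]
    congr 2
    · congr 1
      exact Finset.sum_congr rfl fun b _ => (parts_PP (E2 b)).symm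
    · exact Finset.sum_congr rfl fun b _ => (parts_PP (E3 b)).symm
  refine hsum.trans ?_
  have hb2 : ∑ b, PP (un : V → Bool → ℝ) (E2 b) ≤ n * (2 * Real.exp (-(2 * m))) := by
    refine (Finset.sum_le_sum fun b _ => hP2 b).trans (le_of_eq ?_)
    rw [Finset.sum_const, Finset.card_univ, nsmul_eq_mul]
  have hb3 : ∑ b, PP (un : V → Bool → ℝ) (E3 b) ≤ n * (2 * Real.exp (-(2 * m))) := by
    refine (Finset.sum_le_sum fun b _ => hP3 b).trans (le_of_eq ?_)
    rw [Finset.sum_const, Finset.card_univ, nsmul_eq_mul]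
  have he1 : 1 ≤ Real.exp ((m : ℝ) / 100) := Real.one_le_exp (by positivity)
  have htot : Real.exp (-(2 * (m : ℝ))) + n * (2 * Real.exp (-(2 * m))) +
      n * (2 * Real.exp (-(2 * m))) + δ4 ≤ 9 * Real.exp ((m : ℝ) / 100) * Real.exp (-(2 * m)) := by
    have hep : 0 < Real.exp (-(2 * (m : ℝ))) := Real.exp_pos _
    have : Real.exp (-(2 * (m : ℝ))) + n * (2 * Real.exp (-(2 * m))) +
      n * (2 * Real.exp (-(2 * m))) + δ4 = (3 + 6 * n) * Real.exp (-(2 * m)) := by
      rw [hδ4]; ring
    rw [this]
    refine mul_le_mul_of_nonneg_right ?_ hep.le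
    linarith
  have hfin : 9 * Real.exp ((m : ℝ) / 100) * Real.exp (-(2 * m)) ≤ Real.exp (-(3 / 2 * m)) := by
    have h9 : (9 : ℝ) ≤ Real.exp (49 / 100 * m) := by
      have := Real.add_one_le_exp (49 / 100 * (m : ℝ))
      linarith
    calc 9 * Real.exp ((m : ℝ) / 100) * Real.exp (-(2 * m))
        ≤ Real.exp (49 / 100 * m) * Real.exp ((m : ℝ) / 100) * Real.exp (-(2 * m)) := by gcongr
      _ = Real.exp (-(3 / 2 * m)) := by
          rw [← Real.exp_add, ← Real.exp_add]
          congr 1
          ring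
  linarith

end

end Pool.Agent.Helper15.LP
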